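import Pool.Agent.Q167.SW

/-!
# All terms of sparse sequences: no primes near `m` and near `m ^ 2`

Let `x_0, x_1, …` be ANY sequence of positive real numbers with `x_{n+1} / x_n → ∞` (for instance
`n!` or `exp (n ^ 2)`), and let `f(x) = log x (log₂ x)² log₄ x / (log₃ x)²` be the record scale of
the starting files. For most `α` in the sense of Hausdorff dimension ALL the integers
`m = ⌊α x_{n+1}⌋`, `n ≥ n₀`, have the property that there is no prime at a distance at most
`c f(x_{n+1} / x_n)` from `m` or from `m ^ 2`: so `(m ^ 2, m ^ 2 + c f]` contains no prime for all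
of them. The dimension of the set of these `α` is at least `1 - ε`, with `c` depending on `ε` only,
and it is `1` if `c` may depend on `α`. If `x_{n+1} ≥ x_n ^ (1 + δ)`, the length is the record
length `c f(x_n)`, for all terms.
-/

set_option autoImplicit false

open Filter Topology

namespace Pool.Agent.Results.MP_73869e_nt.AllTermsOfSparseSequences

/-- The record scale `f(x) = log x (log₂ x)² log₄ x / (log₃ x)²` (iterated natural logarithms). -/
noncomputable def f (x : ℝ) : ℝ :=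
  Real.log x * (Real.log (Real.log x)) ^ 2 * Real.log (Real.log (Real.log (Real.log x))) /
    (Real.log (Real.log (Real.log x))) ^ 2

/-- No prime is at a distance at most `H` from `m` or from `m ^ 2`. -/
def Lone (H : ℝ) (m : ℕ) : Prop :=
  ∀ q : ℕ, q.Prime → H < |(q : ℝ) - m| ∧ H < |(q : ℝ) - (m : ℝ) ^ 2|

lemma empty_of_far {H : ℝ} {k : ℕ}
    (h : ∀ q : ℕ, q.Prime → H < |(q : ℝ) - k|) :
    Nat.primeCounting ⌊(k : ℝ) + H⌋₊ - Nat.primeCounting k = 0 := by
  classical
  apply Nat.sub_eq_zero_of_le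
  have hle : ∀ m : ℕ, Nat.primeCounting m = ((Finset.range (m + 1)).filter Nat.Prime).card :=
    fun m => by
      rw [Nat.primeCounting, Nat.primeCounting', Nat.count_eq_card_filter_range]
  rw [hle, hle]
  apply Finset.card_le_card
  intro q hq
  rw [Finset.mem_filter, Finset.mem_range] at hq ⊢
  obtain ⟨h6, h7⟩ := hq
  refine ⟨?_, h7⟩
  by_contra hcon
  have h8 : k < q := by omega
  have h8' : (k : ℝ) < q := by exact_mod_cast h8
  have h9 := h q h7
  rw [abs_of_pos (by linarith)] at h9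
  have h10 : q ≤ ⌊(k : ℝ) + H⌋₊ := by omega
  have h11 : (q : ℝ) ≤ (k : ℝ) + H := (Nat.le_floor_iff' h7.pos.ne').1 h10
  linarith

/-- 1. relates `Lone` to the function of the question: `(m ^ 2, m ^ 2 + H]` (and `(m, m + H]`)
contain no prime. 2. is the theorem with a uniform constant, 3. the version with a constant which
depends on `α`, 4. the case of sequences with `x_{n+1} ≥ x_n ^ (1 + δ)`. -/
theorem result :
    (∀ (H : ℝ) (m : ℕ), Lone H m →
      Nat.primeCounting ⌊(m : ℝ) ^ 2 + H⌋₊ - Nat.primeCounting (m ^ 2) = 0 ∧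
      Nat.primeCounting ⌊(m : ℝ) + H⌋₊ - Nat.primeCounting m = 0) ∧
    (∀ ε : ℝ, 0 < ε → ε < 1 → ∃ c : ℝ, 0 < c ∧
      ∀ x : ℕ → ℝ, (∀ n, 0 < x n) → Tendsto (fun n => x (n + 1) / x n) atTop atTop →
      ∀ u v : ℝ, 0 < u → u < v → ENNReal.ofReal (1 - ε) ≤
        dimH {α : ℝ | u < α ∧ α < v ∧ ∀ᶠ n in atTop,
          Lone (c * f (x (n + 1) / x n)) ⌊α * x (n + 1)⌋₊}) ∧
    (∀ x : ℕ → ℝ, (∀ n, 0 < x n) → Tendsto (fun n => x (n + 1) / x n) atTop atTop →
      ∀ u v : ℝ, 0 < u → u < v →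
        dimH {α : ℝ | u < α ∧ α < v ∧ ∃ c : ℝ, 0 < c ∧ ∀ᶠ n in atTop,
          Lone (c * f (x (n + 1) / x n)) ⌊α * x (n + 1)⌋₊} = 1) ∧
    (∀ δ : ℝ, 0 < δ → ∀ x : ℕ → ℝ, (∀ n, 0 < x n) → Tendsto x atTop atTop →
      (∀ᶠ n in atTop, (x n) ^ (1 + δ) ≤ x (n + 1)) → ∀ u v : ℝ, 0 < u → u < v →
        dimH {α : ℝ | u < α ∧ α < v ∧ ∃ c : ℝ, 0 < c ∧ ∀ᶠ n in atTop,
          Lone (c * f (x n)) ⌊α * x n⌋₊} = 1) := by
  refine ⟨fun H m h => ⟨?_, empty_of_far fun q hq => (h q hq).1⟩,
    Q167.SW.core, fun x hx hR u v hu huv => Q167.SW.one x hx hR u v hu huv,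
    fun δ hδ x hx hxt hR u v hu huv => Q167.SW.record δ hδ x hx hxt hR u v hu huv⟩
  have h1 := empty_of_far (k := m ^ 2) fun q hq => by
    push_cast
    exact (h q hq).2
  push_cast at h1
  exact h1

end Pool.Agent.Results.MP_73869e_nt.AllTermsOfSparseSequences
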