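import Pool.Agent.Q197.WN.CritM

/-!
# Windows of length `c log ^ 2 n` after real powers: the exact entropy price of the exceptions, for all random sets near Cramer's model
-/

set_option autoImplicit false

namespace Pool.Agent.Results.MP_73869e_nt.CriticalBudget

open Finset Filter Pool.Agent.Q197.WN
open scoped Topology

/-- The integers in `(n ^ t, n ^ t + c log ^ 2 n]`. -/
noncomputable def W (t c : ℝ) (n : ℕ) : Finset ℕ := Ioc ⌊(n : ℝ) ^ t⌋₊ ⌊(n : ℝ) ^ t + c * Real.log n ^ 2⌋₊

open Classical in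
/-- The number of the elements of `S` in the window. -/
noncomputable def N (t c : ℝ) (n : ℕ) (S : Set ℕ) : ℕ := ((W t c n).filter (fun x => x ∈ S)).card

/-- The expected number of elements. -/
noncomputable def E (t c : ℝ) (n : ℕ) : ℝ := c / t * Real.log n

theorem mem_W {t c : ℝ} (hc : 0 < c) {n m : ℕ} : m ∈ W t c n ↔ (n : ℝ) ^ t < m ∧ (m : ℝ) ≤ (n : ℝ) ^ t + c * Real.log n ^ 2 := by
  unfold W
  rw [mem_Ioc, Nat.floor_lt (by positivity), Nat.le_floor_iff (by positivity)]

/-- The entropy price of the exceptions. -/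
theorem result (t c : ℝ) (ht : 1 < t) (hc : 0 < c) :
    (∀ θ : ℝ, 0 ≤ θ → θ < 1 → 1 < c / t * rate θ → ∀ ε : ℝ, 0 < ε →
      Crit cr (W t c) (fun n S => (N t c n S : ℝ) ≤ θ * E t c n)
        (fun n S => (θ - ε) * E t c n ≤ N t c n S ∧ (N t c n S : ℝ) ≤ θ * E t c n) (c / t * rate θ)) ∧
    (∀ θ : ℝ, 1 < θ → 1 < c / t * rate θ → ∀ ε : ℝ, 0 < ε →
      Crit cr (W t c) (fun n S => θ * E t c n ≤ (N t c n S : ℝ))
        (fun n S => θ * E t c n ≤ N t c n S ∧ (N t c n S : ℝ) ≤ (θ + ε) * E t c n) (c / t * rate θ)) := by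
  have hX : Tendsto (fun n : ℕ => (n : ℝ) ^ t) atTop atTop :=
    (tendsto_rpow_atTop (by linarith)).comp tendsto_natCast_atTop_atTop
  have hlog2 : ∀ D : ℝ, ∀ᶠ n : ℕ in atTop, D * Real.log n ^ 2 ≤ (n : ℝ) ^ (t - 1) := by
    intro D
    have h1 := (isLittleO_log_rpow_rpow_atTop (s := t - 1) 2 (by linarith)).bound (show (0 : ℝ) < 1 / (1 + |D|) by positivity)
    have h2 := tendsto_natCast_atTop_atTop (R := ℝ).eventually h1
    filter_upwards [h2, eventually_ge_atTop 1] with x hx hx3
    have h3 : 0 ≤ Real.log (x : ℝ) := Real.log_natCast_nonneg x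
    rw [Real.norm_of_nonneg (by positivity), Real.norm_of_nonneg (by positivity), Real.rpow_two] at hx
    have h6 : D ≤ 1 + |D| := by linarith [le_abs_self D]
    have h7 : 0 < 1 + |D| := by positivity
    calc D * Real.log x ^ 2 ≤ (1 + |D|) * Real.log x ^ 2 := by
          apply mul_le_mul_of_nonneg_right h6 (by positivity)
      _ ≤ (1 + |D|) * (1 / (1 + |D|) * (x : ℝ) ^ (t - 1)) := mul_le_mul_of_nonneg_left hx h7.le
      _ = (x : ℝ) ^ (t - 1) := by field_simp
  have hstep : ∀ n : ℕ, 1 ≤ n → (n : ℝ) ^ t + (n : ℝ) ^ (t - 1) ≤ ((n : ℝ) + 1) ^ t := by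
    intro n hn
    have hn0 : (0 : ℝ) < n := by exact_mod_cast hn
    have h1 := one_add_mul_self_le_rpow_one_add (s := 1 / (n : ℝ)) (by have : 0 < 1 / (n : ℝ) := by positivity
                                                                       linarith) ht.le
    have h2 : ((n : ℝ) + 1) ^ t = (n : ℝ) ^ t * (1 + 1 / (n : ℝ)) ^ t := by
      rw [← Real.mul_rpow hn0.le (by positivity)]
      congr 1
      field_simp
    have h3 : (n : ℝ) ^ (t - 1) = (n : ℝ) ^ t * (1 / n) := by
      rw [Real.rpow_sub_one hn0.ne', div_eq_mul_one_div]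
    rw [h2, h3]
    have h4 : (n : ℝ) ^ t * (1 + t * (1 / n)) ≤ (n : ℝ) ^ t * (1 + 1 / (n : ℝ)) ^ t := mul_le_mul_of_nonneg_left h1 (by positivity)
    have h5 : (n : ℝ) ^ t * (1 / n) ≤ (n : ℝ) ^ t * (t * (1 / n)) := by
      apply mul_le_mul_of_nonneg_left _ (by positivity)
      have : 0 < 1 / (n : ℝ) := by positivity
      nlinarith
    nlinarith
  obtain ⟨n0, hn0⟩ := eventually_atTop.1 ((hlog2 c).and (eventually_ge_atTop 1))
  have hkey : ∀ i j, n0 ≤ i → i < j → ∀ m, m ∈ W t c i → m ∈ W t c j → False := by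
    intro i j hi hij m h1 h2
    rw [mem_W hc] at h1 h2
    obtain ⟨h3, h4⟩ := hn0 i hi
    have h5 := hstep i h4
    have h6 : ((i : ℝ) + 1) ^ t ≤ (j : ℝ) ^ t := Real.rpow_le_rpow (by positivity) (by exact_mod_cast hij) (by linarith)
    linarith [h1.2, h2.1]
  have hd : ∀ i j, n0 ≤ i → n0 ≤ j → i ≠ j → Disjoint (W t c i) (W t c j) := by
    intro i j hi hj hij
    rw [Finset.disjoint_left]
    intro m h1 h2
    rcases lt_or_gt_of_ne hij with h | h
    · exact hkey i j hi h m h1 h2
    · exact hkey j i hj h m h2 h1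
  have hW : ∀ᶠ n : ℕ in atTop, ∀ x ∈ W t c n, (n : ℝ) ^ t ≤ x ∧ (x : ℝ) ≤ 2 * (n : ℝ) ^ t := by
    filter_upwards [hlog2 c, eventually_ge_atTop 1] with n hn hn1 x hx
    rw [mem_W hc] at hx
    have hn' : (1 : ℝ) ≤ n := by exact_mod_cast hn1
    have h1 : (n : ℝ) ^ (t - 1) ≤ (n : ℝ) ^ t := Real.rpow_le_rpow_of_exponent_le hn' (by linarith)
    exact ⟨hx.1.le, by linarith [hx.2]⟩
  have hcard : Tendsto (fun n : ℕ => ((W t c n).card : ℝ) / (c / t * Real.log n * (t * Real.log n))) atTop (𝓝 1) := by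
    have h0 : Tendsto (fun n : ℕ => (1 : ℝ) / (c * Real.log n ^ 2)) atTop (𝓝 0) := by
      refine tendsto_const_nhds.div_atTop ?_
      exact (tendsto_pow_atTop (by norm_num)).comp log_tend |>.const_mul_atTop hc
    have h1 : Tendsto (fun n : ℕ => 1 - (1 : ℝ) / (c * Real.log n ^ 2)) atTop (𝓝 1) := by
      have := tendsto_const_nhds (x := (1 : ℝ)) |>.sub h0
      rwa [sub_zero] at this
    have h2 : Tendsto (fun n : ℕ => 1 + (1 : ℝ) / (c * Real.log n ^ 2)) atTop (𝓝 1) := by
      have := tendsto_const_nhds (x := (1 : ℝ)) |>.add h0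
      rwa [add_zero] at this
    refine tendsto_of_tendsto_of_tendsto_of_le_of_le' h1 h2 ?_ ?_
    · filter_upwards [log_tend.eventually_gt_atTop 0] with n hn
      have hn' : 0 < Real.log (n : ℝ) := hn
      have h3 := (Pool.Agent.Q120.PT.card_owin (X := (n : ℝ) ^ t) (H := c * Real.log n ^ 2) (by positivity) (by positivity)).1
      have h4 : c / t * Real.log n * (t * Real.log n) = c * Real.log n ^ 2 := by field_simp
      rw [h4, le_div_iff₀ (by positivity), sub_mul, one_mul, div_mul_cancel₀ _ (by positivity)]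
      exact h3
    · filter_upwards [log_tend.eventually_gt_atTop 0] with n hn
      have hn' : 0 < Real.log (n : ℝ) := hn
      have h3 := (Pool.Agent.Q120.PT.card_owin (X := (n : ℝ) ^ t) (H := c * Real.log n ^ 2) (by positivity) (by positivity)).2
      have h4 : c / t * Real.log n * (t * Real.log n) = c * Real.log n ^ 2 := by field_simp
      rw [h4, div_le_iff₀ (by positivity), add_mul, one_mul, div_mul_cancel₀ _ (by positivity)]
      exact h3
  have hG : Tendsto (fun n : ℕ => Real.log ((n : ℝ) ^ t) / (t * Real.log n)) atTop (𝓝 1) := by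
    refine tendsto_const_nhds.congr' ?_
    filter_upwards [log_tend.eventually_gt_atTop 0, eventually_ge_atTop 1] with n hn hn1
    have hn' : Real.log (n : ℝ) ≠ 0 := ne_of_gt hn
    rw [Real.log_rpow (by exact_mod_cast hn1), div_self (by positivity)]
  have h := crit_cr (W := W t c) (X := fun n : ℕ => (n : ℝ) ^ t) (G := fun n : ℕ => t * Real.log n) (l := c / t)
    (by positivity) hd hX hW hcard hG
  have e1 : ∀ n S, els (W t c n) S = N t c n S := fun n S => rfl
  simp only [e1] at h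
  exact h

end Pool.Agent.Results.MP_73869e_nt.CriticalBudget
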