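import Pool.Agent.Q166.ExJ

/-!
# Cramér's model after the powers `n ^ θ`: the exceptional exponents

In Cramér's random model of the primes, outside ONE set of probability zero and for EVERY `c > 0`, let `E` be
the set of the real exponents `θ > 1` for which infinitely many of the windows `(n ^ θ, n ^ θ + c (log n) ^ 2]`
contain no element. Then

* for every real `θ > 1` the number of `n ≤ x` with an empty window is `x ^ (max (0, 1 - c / θ) + o(1))`;
* no `θ` with `θ ^ 2 < c` lies in `E`, and every `θ > max (1, c)` lies in `E`;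
* for `√c < v ≤ c` and every `u < v` the Hausdorff dimension of `E ∩ (u, v)` is `1 + 1 / v - c / v ^ 2`
  (it jumps from the empty set to `1 / √c` at `√c` and reaches `1` at `c`);
* `E ∩ (1, c)` has Lebesgue measure zero.

The problem is the case `c = 1 / (log 2) ^ 2 = 2.08...`, `θ = 2`.
-/

set_option autoImplicit false

namespace Pool.Agent.Results.MP_73869e_nt.ExceptionalPowers

open Finset MeasureTheory Filter Topology Pool.Agent.Q120.MF Pool.Agent.Q166.Ex

/-- **The exceptional exponents in Cramér's model.** -/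
theorem result :
    (∃ (Ω : Type) (_ : MeasurableSpace Ω) (μ : Measure Ω) (A : Ω → Set ℕ), IsProbabilityMeasure μ ∧ IsCramer μ A) ∧
    ∀ (Ω : Type) [MeasurableSpace Ω] (μ : Measure Ω) [IsProbabilityMeasure μ] (A : Ω → Set ℕ), IsCramer μ A →
      ∀ᵐ ω ∂μ, ∀ c : ℝ, 0 < c →
        -- (1) the number of empty windows, for every real exponent
        (∀ θ : ℝ, 1 < θ → Tendsto (fun x : ℕ => Real.log (cnt (A ω) c θ x) / Real.log x) atTop
          (𝓝 (max 0 (1 - c / θ)))) ∧
        -- (2) below the square root of `c` no exponent is exceptional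
        (∀ θ : ℝ, 1 < θ → θ ^ 2 < c → ∀ᶠ n : ℕ in atTop,
          ∃ m ∈ A ω, (n : ℝ) ^ θ < m ∧ (m : ℝ) ≤ (n : ℝ) ^ θ + c * Real.log n ^ 2) ∧
        -- (3) the dimension of the set of exceptional exponents
        (∀ u v : ℝ, 1 < v → c < v ^ 2 → v ≤ c → u < v →
          dimH (Exc (A ω) c ∩ Set.Ioo u v) = ENNReal.ofReal (1 + 1 / v - c / v ^ 2)) ∧
        -- (4) every exponent above `c` is exceptional
        (∀ θ : ℝ, 1 < θ → c < θ → θ ∈ Exc (A ω) c) ∧
        -- (5) almost no exponent below `c` is exceptional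
        volume (Exc (A ω) c ∩ Set.Iio c) = 0 := by
  refine ⟨⟨_, _, cramerMeasure, cramerSet, inferInstance, isCramer⟩, ?_⟩
  intro Ω _ μ _ A hA
  filter_upwards [ae_good hA] with ω hω c hc
  refine ⟨fun θ hθ => hω.law hc hθ, ?_, ?_, fun θ h1 h2 => hω.mem hc h1 h2, hω.null hc⟩
  · intro θ h1 h2
    have h3 := hω.notMem hc h2
    have h4 : ¬ ∃ᶠ n : ℕ in atTop, FreeAt (A ω) ((n : ℝ) ^ θ) (c * Real.log n ^ 2) := fun h => h3 ⟨h1, h⟩
    rw [not_frequently] at h4
    filter_upwards [h4] with n hn
    unfold FreeAt at hn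
    push Not at hn
    exact hn
  · intro u v h1 h2 h3 h4
    exact le_antisymm (hω.dim_le hc h1 h3 h2 u) (hω.le_dim h1 h3 h2 h4)

end Pool.Agent.Results.MP_73869e_nt.ExceptionalPowers
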