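import Pool.Agent.Q167.LI.J
import Pool.Agent.Q120.PT.Basic

/-!
# How much independence primes just above the powers `n^k` need

In Cramér's random model with independence of bounded order only, the windows
`(n^k, n^k + c (log n)^2]` all contain elements of the random set from some point on as soon as
the order at `N` is at least `(α - o(1)) log N` with `Λ(k α) < c / k`, and need not if the order
is at most `(α + o(1)) log N` with `c / k < Λ(k α)`.
-/

set_option autoImplicit false

namespace Pool.Agent.Results.MP_73869e_nt.OrderOfIndependence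

open Finset MeasureTheory Filter Topology Pool.Agent.Q120.PT Q167.LI

/-- Cramér's random model with independence of order `κ`: `E n` is the event that the integer `n`
belongs to the random set, and for every finite set `T` of integers `n ≥ 3` with at most `κ n`
elements for all `n ∈ T` the probability that `T` is contained in the random set is
`∏ 1 / log n`. -/
structure CramerModel {Ω : Type} [MeasurableSpace Ω] (P : Measure Ω) (κ : ℕ → ℕ)
    (E : ℕ → Set Ω) : Prop where
  meas : ∀ n, MeasurableSet (E n)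
  indep : ∀ T : Finset ℕ, (∀ n ∈ T, 3 ≤ n ∧ T.card ≤ κ n) →
    P (⋂ n ∈ T, E n) = ENNReal.ofReal (∏ n ∈ T, 1 / Real.log n)

/-- The decreasing function `Λ(a) = (a/2) e^(2/a - 1)` for `0 < a < 2`, and `1` for `a ≥ 2`. -/
noncomputable def Lambda (a : ℝ) : ℝ := if a < 2 then a / 2 * Real.exp (2 / a - 1) else 1

/-- the window -/
noncomputable def win (k c : ℝ) (n : ℕ) : Finset ℕ := owin ((n : ℝ) ^ k) (c * Real.log n ^ 2)

lemma mem_win {k c : ℝ} (hc : 0 < c) {n N : ℕ} :
    N ∈ win k c n ↔ (n : ℝ) ^ k < N ∧ (N : ℝ) ≤ (n : ℝ) ^ k + c * Real.log n ^ 2 :=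
  mem_owin (Real.rpow_nonneg (Nat.cast_nonneg _) _) (by positivity)

/-- the window is short -/
lemma short {s c η : ℝ} (hs : 0 < s) (hη : 0 < η) :
    ∀ᶠ n : ℕ in atTop, c * Real.log n ^ 2 ≤ η * (n : ℝ) ^ s := by
  have h1 : (fun x : ℝ => Real.log x ^ 2) =o[atTop] (fun x : ℝ => x ^ s) := by
    have := isLittleO_log_rpow_rpow_atTop (s := s) 2 hs
    simpa using this
  have h2 := tendsto_natCast_atTop_atTop.eventually (h1.def (c := η / (|c| + 1)) (by positivity))
  filter_upwards [h2] with n g1
  rw [Real.norm_of_nonneg (by positivity),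
    Real.norm_of_nonneg (Real.rpow_nonneg (Nat.cast_nonneg _) _)] at g1
  have h3 : c * Real.log n ^ 2 ≤ (|c| + 1) * Real.log n ^ 2 :=
    mul_le_mul_of_nonneg_right (by linarith [le_abs_self c]) (by positivity)
  have h4 : (|c| + 1) * Real.log n ^ 2 ≤ (|c| + 1) * (η / (|c| + 1) * (n : ℝ) ^ s) :=
    mul_le_mul_of_nonneg_left g1 (by positivity)
  have h5 : (|c| + 1) * (η / (|c| + 1) * (n : ℝ) ^ s) = η * (n : ℝ) ^ s := by
    have : |c| + 1 ≠ 0 := by positivity
    field_simp
  linarith

lemma of_large {k c : ℝ} (hk : 1 < k) (hc : 0 < c) {Q : ℕ → Prop} (hQ : ∀ᶠ N : ℕ in atTop, Q N) :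
    ∀ᶠ n : ℕ in atTop, ∀ y ∈ win k c n, Q y := by
  obtain ⟨N₀, hN₀⟩ := eventually_atTop.1 hQ
  have h1 : Tendsto (fun n : ℕ => (n : ℝ) ^ k) atTop atTop :=
    (tendsto_rpow_atTop (by linarith)).comp tendsto_natCast_atTop_atTop
  filter_upwards [h1.eventually_ge_atTop (N₀ : ℝ)] with n hn y hy
  rw [mem_win hc] at hy
  exact hN₀ y (by exact_mod_cast hn.trans hy.1.le)

lemma log_ge {k c : ℝ} (hc : 0 < c) {n y : ℕ} (hn : 1 ≤ n) (hy : y ∈ win k c n) :
    k * Real.log n ≤ Real.log y := by
  rw [mem_win hc] at hy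
  have hn0 : (0:ℝ) < n := by exact_mod_cast hn
  rw [← Real.log_rpow hn0]
  exact Real.log_le_log (Real.rpow_pos_of_pos hn0 _) hy.1.le

lemma log_le {k c : ℝ} (hk : 1 < k) (hc : 0 < c) : ∀ᶠ n : ℕ in atTop,
    ∀ y ∈ win k c n, Real.log y ≤ k * Real.log n + 1 := by
  filter_upwards [short (s := k) (c := c) (by linarith) one_pos, eventually_ge_atTop 1]
    with n hn hn1 y hy
  rw [mem_win hc] at hy
  have hn0 : (0:ℝ) < n := by exact_mod_cast hn1
  have hbn : 0 < (n : ℝ) ^ k := Real.rpow_pos_of_pos hn0 _
  have h1 : (y : ℝ) ≤ 2 * (n : ℝ) ^ k := by linarith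
  have hy0 : (0:ℝ) < y := lt_trans hbn hy.1
  have h2 : Real.log y ≤ Real.log (2 * (n : ℝ) ^ k) := Real.log_le_log hy0 h1
  rw [Real.log_mul two_ne_zero hbn.ne', Real.log_rpow hn0] at h2
  have h3 := Real.log_two_lt_d9
  linarith

lemma card_win {k c : ℝ} (hc : 0 < c) (n : ℕ) :
    c * Real.log n ^ 2 - 1 ≤ ((win k c n).card : ℝ) ∧
      ((win k c n).card : ℝ) ≤ c * Real.log n ^ 2 + 1 :=
  card_owin (Real.rpow_nonneg (Nat.cast_nonneg _) _) (by positivity)

lemma tendsto_L {k : ℝ} (hk : 1 < k) : Tendsto (fun n : ℕ => k * Real.log (n : ℝ)) atTop atTop :=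
  tendsto_log_nat.const_mul_atTop (by linarith)

/-- (1) and (2): the threshold for the windows `(n^k, n^k + c (log n)^2]`; (3) the case `k = 2`,
`c = 1 / (log 2)^2`. -/
theorem result :
    (∀ k c α : ℝ, 1 < k → 0 < c → 0 < α → Lambda (k * α) < c / k →
      ∀ κ : ℕ → ℕ, (∀ ε : ℝ, 0 < ε → ∀ᶠ N : ℕ in atTop, (α - ε) * Real.log N ≤ κ N) →
      ∀ (Ω : Type) [MeasurableSpace Ω] (P : Measure Ω) [IsProbabilityMeasure P] (E : ℕ → Set Ω),
        CramerModel P κ E → ∀ᵐ ω ∂P, ∀ᶠ n : ℕ in atTop, ∃ N : ℕ, (n : ℝ) ^ k < N ∧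
          (N : ℝ) ≤ (n : ℝ) ^ k + c * Real.log n ^ 2 ∧ ω ∈ E N) ∧
    (∀ k c α : ℝ, 1 < k → 0 < c → 0 < α → c / k < Lambda (k * α) →
      ∀ κ : ℕ → ℕ, (∀ ε : ℝ, 0 < ε → ∀ᶠ N : ℕ in atTop, (κ N : ℝ) ≤ (α + ε) * Real.log N) →
      ∃ (Ω : Type) (_ : MeasurableSpace Ω) (P : Measure Ω) (_ : IsProbabilityMeasure P)
        (E : ℕ → Set Ω), CramerModel P κ E ∧ ∀ᵐ ω ∂P, ∃ᶠ n : ℕ in atTop, ∀ N : ℕ,
          (n : ℝ) ^ k < N → (N : ℝ) ≤ (n : ℝ) ^ k + c * Real.log n ^ 2 → ω ∉ E N) ∧
    (Lambda (2 * (77 / 100)) < 1 / Real.log 2 ^ 2 / 2 ∧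
      1 / Real.log 2 ^ 2 / 2 < Lambda (2 * (76 / 100))) := by
  refine ⟨?_, ?_, ?_, ?_⟩
  · intro k c α hk hc hα hΛ κ hκ Ω _ P _ E hM
    have hk0 : 0 < k := by linarith
    have hmain := sparse_upper P hM.meas hM.indep (W := win k c)
      (L := fun n => k * Real.log n + 1) (a := k * α) (τ := c / k) (by positivity) hΛ
      (tendsto_atTop_add_const_right _ _ (tendsto_L hk))
      (by
        filter_upwards [of_large hk hc (eventually_ge_atTop 3), log_le hk hc] with n g1 g2 y hy
        exact ⟨g1 y hy, g2 y hy⟩)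
      (by
        intro τ' hτ'
        rw [lt_div_iff₀ hk0] at hτ'
        have h1 : Tendsto (fun n : ℕ => (c - τ' * k) * Real.log n) atTop atTop :=
          tendsto_log_nat.const_mul_atTop (by linarith)
        filter_upwards [h1.eventually_ge_atTop (|τ'| + 1),
          tendsto_log_nat.eventually_ge_atTop 1] with n g2 g3
        have h2 := (card_win (k := k) hc n).1
        have h4 : τ' ≤ |τ'| := le_abs_self _
        have h5 : (|τ'| + 1) * Real.log n ≤ (c - τ' * k) * Real.log n * Real.log n :=
          mul_le_mul_of_nonneg_right g2 (by linarith)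
        have h6 : τ' * Real.log n ≤ |τ'| * Real.log n :=
          mul_le_mul_of_nonneg_right h4 (by linarith)
        nlinarith)
      (by
        intro a' ha'
        obtain ⟨e, he1, he2⟩ := exists_between (show max a' 0 < k * α from
          max_lt ha' (by positivity))
        have he0 : 0 < e := lt_of_le_of_lt (le_max_right _ _) he1
        have hea : a' < e := lt_of_le_of_lt (le_max_left _ _) he1
        filter_upwards [of_large hk hc (hκ (α - e / k) (by
          rw [sub_pos, div_lt_iff₀ hk0]
          linarith)), eventually_ge_atTop 1] with n g1 g2 y hy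
        have h1 := g1 y hy
        rw [sub_sub_cancel] at h1
        have h2 := log_ge hc g2 hy
        have h3 : e / k * (k * Real.log n) ≤ e / k * Real.log y :=
          mul_le_mul_of_nonneg_left h2 (by positivity)
        have h4 : e / k * (k * Real.log n) = e * Real.log n := by field_simp
        have h5 : a' * Real.log n ≤ e * Real.log n :=
          mul_le_mul_of_nonneg_right hea.le (Real.log_nonneg (by exact_mod_cast g2))
        linarith)
    filter_upwards [hmain] with ω hω
    filter_upwards [hω] with n hn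
    obtain ⟨y, hy, hyE⟩ := hn
    rw [mem_win hc] at hy
    exact ⟨y, hy.1, hy.2, hyE⟩
  · intro k c α hk hc hα hΛ κ hκ
    have hk0 : 0 < k := by linarith
    have hτ0 : 0 < c / k := by positivity
    obtain ⟨Ω, mΩ, P, hP, E, hE, hT, hae⟩ := sparse_lower
      (W := win k c) (L := fun n => k * Real.log n) (a := k * α)
      (τ := c / k) (by positivity) hτ0 hΛ (κ := κ)
      (by
        obtain ⟨n₀, hn₀⟩ := eventually_atTop.1 ((short (s := k - 1) (c := c) (by linarith)
          one_pos).and (eventually_ge_atTop 1))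
        refine ⟨n₀, ?_⟩
        have key : ∀ n n' y, n₀ ≤ n → n < n' → y ∈ win k c n → y ∈ win k c n' → False := by
          intro n n' y hn hlt h1 h2
          rw [mem_win hc] at h1 h2
          obtain ⟨h3, h4⟩ := hn₀ n hn
          have hn0 : (0:ℝ) < n := by exact_mod_cast h4
          have h5 : ((n : ℝ) + 1) ^ k ≤ (n' : ℝ) ^ k := by
            apply Real.rpow_le_rpow (by positivity) _ hk0.le
            exact_mod_cast hlt
          have h6 : (n : ℝ) ^ k + k * (n : ℝ) ^ (k - 1) ≤ ((n : ℝ) + 1) ^ k := by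
            have h7 := one_add_mul_self_le_rpow_one_add (s := 1 / (n : ℝ)) (p := k)
              (by have : 0 < 1 / (n : ℝ) := by positivity
                  linarith) hk.le
            have h8 : ((n : ℝ) + 1) ^ k = (n : ℝ) ^ k * (1 + 1 / (n : ℝ)) ^ k := by
              rw [← Real.mul_rpow hn0.le (by positivity)]
              congr 1
              field_simp
            have h9 : (n : ℝ) ^ k * (k * (1 / n)) = k * (n : ℝ) ^ (k - 1) := by
              rw [Real.rpow_sub_one hn0.ne']
              ring
            have h10 : 0 < (n : ℝ) ^ k := Real.rpow_pos_of_pos hn0 _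
            rw [h8]
            nlinarith [mul_le_mul_of_nonneg_left h7 h10.le]
          have h11 : 0 < (n : ℝ) ^ (k - 1) := Real.rpow_pos_of_pos hn0 _
          nlinarith [h2.1, h1.2]
        intro n n' y h1 h2 h3 h4
        rcases lt_trichotomy n n' with h | h | h
        · exact absurd h4 (fun h4 => key n n' y h1 h h3 h4)
        · exact h
        · exact absurd h3 (fun h3 => key n' n y h2 h h4 h3))
      (tendsto_L hk)
      (by
        filter_upwards [of_large hk hc (eventually_ge_atTop 3), eventually_ge_atTop 1]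
          with n g1 g2 y hy
        exact ⟨g1 y hy, log_ge hc g2 hy⟩)
      (by
        intro τ' hτ'
        rw [div_lt_iff₀ hk0] at hτ'
        have h1 : Tendsto (fun n : ℕ => (τ' * k - c) * Real.log n) atTop atTop :=
          tendsto_log_nat.const_mul_atTop (by linarith)
        filter_upwards [h1.eventually_ge_atTop 1, tendsto_log_nat.eventually_ge_atTop 1]
          with n g2 g3
        have h2 := (card_win (k := k) hc n).2
        have h5 : 1 * Real.log n ≤ (τ' * k - c) * Real.log n * Real.log n :=
          mul_le_mul_of_nonneg_right g2 (by linarith)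
        nlinarith)
      (by
        intro τ' hτ'
        rw [lt_div_iff₀ hk0] at hτ'
        have h1 : Tendsto (fun n : ℕ => (c - τ' * k) * Real.log n) atTop atTop :=
          tendsto_log_nat.const_mul_atTop (by linarith)
        filter_upwards [h1.eventually_ge_atTop 1, tendsto_log_nat.eventually_ge_atTop 1]
          with n g2 g3
        have h2 := (card_win (k := k) hc n).1
        have h5 : 1 * Real.log n ≤ (c - τ' * k) * Real.log n * Real.log n :=
          mul_le_mul_of_nonneg_right g2 (by linarith)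
        nlinarith)
      (by
        intro a' ha'
        obtain ⟨e, he1, he2⟩ := exists_between ha'
        have he0 : 0 < e := lt_trans (by positivity) he1
        have h1 : Tendsto (fun n : ℕ => (a' - e) * Real.log n) atTop atTop :=
          tendsto_log_nat.const_mul_atTop (by linarith)
        filter_upwards [of_large hk hc (hκ (e / k - α) (by
          rw [sub_pos, lt_div_iff₀ hk0]
          linarith)), log_le hk hc, h1.eventually_ge_atTop (e / k)] with n g1 g2 g3 y hy
        have h1 := g1 y hy
        rw [add_sub_cancel] at h1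
        have h3 : e / k * Real.log y ≤ e / k * (k * Real.log n + 1) :=
          mul_le_mul_of_nonneg_left (g2 y hy) (by positivity)
        have h4 : e / k * (k * Real.log n + 1) = e * Real.log n + e / k := by field_simp
        linarith)
    refine ⟨Ω, mΩ, P, hP, E, ⟨hE, hT⟩, ?_⟩
    filter_upwards [hae] with ω hω
    refine hω.mono fun n hn N h1 h2 => ?_
    exact hn N ((mem_win hc).2 ⟨h1, h2⟩)
  · unfold Lambda
    have hl := Real.log_two_lt_d9
    have hl0 : 0 < Real.log 2 := Real.log_pos (by norm_num)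
    rw [if_pos (by norm_num), div_div, lt_div_iff₀ (by positivity)]
    have h1 : Real.exp (2 / (2 * (77 / 100)) - 1) ≤ 1.3483 := by
      have e1 : (2 / (2 * (77 / 100)) - 1 : ℝ) = 23 / 77 := by norm_num
      rw [e1]
      have := Real.exp_bound' (x := 23 / 77) (by norm_num) (by norm_num) (n := 4) (by norm_num)
      refine this.trans ?_
      norm_num [Finset.sum_range_succ, Nat.factorial]
    have h2 : Real.log 2 ^ 2 ≤ 0.480454 := by nlinarith
    have h3 : 0 < Real.log 2 ^ 2 := by positivity
    have h4 := Real.exp_pos (2 / (2 * (77 / 100)) - 1 : ℝ)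
    nlinarith
  · unfold Lambda
    have hl := Real.log_two_gt_d9
    have hl0 : 0 < Real.log 2 := Real.log_pos (by norm_num)
    rw [if_pos (by norm_num), div_div, div_lt_iff₀ (by positivity)]
    have h1 : 1.3710 ≤ Real.exp (2 / (2 * (76 / 100)) - 1) := by
      have e1 : (2 / (2 * (76 / 100)) - 1 : ℝ) = 6 / 19 := by norm_num
      rw [e1]
      have := Real.sum_le_exp_of_nonneg (x := 6 / 19) (by norm_num) 5
      refine le_trans ?_ this
      norm_num [Finset.sum_range_succ, Nat.factorial]
    have h2 : 0.480453 ≤ Real.log 2 ^ 2 := by nlinarith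
    nlinarith

end Pool.Agent.Results.MP_73869e_nt.OrderOfIndependence
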